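import Mathlib

/-!
A kernel checker for inequalities `0 ≤ ∑ P_j(u) exp (a_j + r_j u)` on intervals
(`P_j` polynomials with rational coefficients, `a_j`, `r_j` rational).
-/

namespace Pool.Agent.H9.RM

/-- value of a list polynomial at a real number -/
def evP : List ℚ → ℝ → ℝ
  | [], _ => 0
  | a :: l, x => (a : ℝ) + x * evP l x

/-- value of a list polynomial at a rational number -/
def evQ : List ℚ → ℚ → ℚ
  | [], _ => 0
  | a :: l, x => a + x * evQ l x

/-- sum of list polynomials -/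
def addP : List ℚ → List ℚ → List ℚ
  | [], B => B
  | A, [] => A
  | a :: A, b :: B => (a + b) :: addP A B

/-- scalar multiple -/
def smP (c : ℚ) : List ℚ → List ℚ
  | [] => []
  | a :: A => (c * a) :: smP c A

/-- product -/
def muP : List ℚ → List ℚ → List ℚ
  | [], _ => []
  | a :: A, B => addP (smP a B) (0 :: muP A B)

/-- `shP P c` is `P(c + X)` -/
def shP : List ℚ → ℚ → List ℚ
  | [], _ => []
  | a :: A, c => addP [a] (addP (smP c (shP A c)) (0 :: shP A c))

/-- `∑ |c_k| h^k` -/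
def abP : List ℚ → ℚ → ℚ
  | [], _ => 0
  | a :: A, h => |a| + h * abP A h

theorem evQ_cast (l : List ℚ) (x : ℚ) : ((evQ l x : ℚ) : ℝ) = evP l (x : ℝ) := by
  induction l with
  | nil => simp [evQ, evP]
  | cons a l ih => simp [evQ, evP, ih]

theorem evP_addP (A B : List ℚ) (x : ℝ) : evP (addP A B) x = evP A x + evP B x := by
  induction A generalizing B with
  | nil => simp [addP, evP]
  | cons a A ih =>
    cases B with
    | nil => simp [addP, evP]
    | cons b B => simp only [addP, evP, ih]; push_cast; ring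

theorem evP_smP (c : ℚ) (A : List ℚ) (x : ℝ) : evP (smP c A) x = c * evP A x := by
  induction A with
  | nil => simp [smP, evP]
  | cons a A ih => simp only [smP, evP, ih]; push_cast; ring

theorem evP_muP (A B : List ℚ) (x : ℝ) : evP (muP A B) x = evP A x * evP B x := by
  induction A with
  | nil => simp [muP, evP]
  | cons a A ih => simp only [muP, evP_addP, evP_smP, evP, ih]; push_cast; ring

theorem evP_shP (A : List ℚ) (c : ℚ) (x : ℝ) : evP (shP A c) x = evP A (c + x) := by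
  induction A with
  | nil => simp [shP, evP]
  | cons a A ih => simp only [shP, evP_addP, evP_smP, evP, ih]; push_cast; ring

theorem abs_evP_le (A : List ℚ) (h : ℚ) (x : ℝ) (hx : |x| ≤ h) : |evP A x| ≤ abP A h := by
  have h0 : (0 : ℝ) ≤ h := (abs_nonneg x).trans hx
  induction A with
  | nil => simp [evP, abP]
  | cons a A ih =>
    simp only [evP, abP]
    push_cast
    calc |(a : ℝ) + x * evP A x| ≤ |(a : ℝ)| + |x * evP A x| := abs_add_le _ _
      _ = |(a : ℝ)| + |x| * |evP A x| := by rw [abs_mul]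
      _ ≤ |(a : ℝ)| + h * abP A h := by
          have := mul_le_mul hx ih (abs_nonneg _) h0
          linarith

theorem abP_nonneg (A : List ℚ) (h : ℚ) (hh : 0 ≤ h) : 0 ≤ abP A h := by
  induction A with
  | nil => simp [abP]
  | cons a A ih => simp only [abP]; positivity

/-- rounding down to a multiple of `2^-48` -/
def rdn (x : ℚ) : ℚ := (Rat.floor (x * 281474976710656) : ℚ) / 281474976710656

/-- rounding up to a multiple of `2^-48` -/
def rup (x : ℚ) : ℚ := -rdn (-x)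

theorem rdn_le (x : ℚ) : rdn x ≤ x := by
  unfold rdn
  have h : ((Rat.floor (x * 281474976710656) : ℤ) : ℚ) ≤ x * 281474976710656 :=
    Int.floor_le (x * 281474976710656)
  rw [div_le_iff₀ (by norm_num)]
  exact h

theorem le_rup (x : ℚ) : x ≤ rup x := by
  have := rdn_le (-x)
  unfold rup
  linarith

theorem rdn_nonneg (x : ℚ) (hx : 0 ≤ x) : 0 ≤ rdn x := by
  unfold rdn
  have h : (0 : ℤ) ≤ Int.floor (x * 281474976710656) := Int.floor_nonneg.mpr (by positivity)
  have h' : (0 : ℤ) ≤ Rat.floor (x * 281474976710656) := h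
  have : (0 : ℚ) ≤ ((Rat.floor (x * 281474976710656) : ℤ) : ℚ) := by exact_mod_cast h'
  positivity

/-- coefficients of the Taylor polynomial of degree 9 -/
def c9 : List ℚ := [1, 1, 1 / 2, 1 / 6, 1 / 24, 1 / 120, 1 / 720, 1 / 5040, 1 / 40320, 1 / 362880]

theorem exp_c9 (y : ℝ) (hy : |y| ≤ 1) : |Real.exp y - evP c9 y| ≤ |y| ^ 10 * (11 / 36288000) := by
  have h := Real.exp_bound hy (n := 10) (by norm_num)
  have e : ∑ m ∈ Finset.range 10, y ^ m / (m.factorial : ℝ) = evP c9 y := by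
    simp only [Finset.sum_range_succ, Finset.sum_range_zero, Nat.factorial, evP, c9]
    push_cast
    ring
  rw [e] at h
  refine h.trans (le_of_eq ?_)
  norm_num [Nat.factorial]

/-- repeated squaring, rounding down -/
def sqD : ℕ → ℚ → ℚ
  | 0, x => x
  | n + 1, x => sqD n (rdn (x * x))

/-- repeated squaring, rounding up -/
def sqU : ℕ → ℚ → ℚ
  | 0, x => x
  | n + 1, x => sqU n (rup (x * x))

theorem sqD_le (n : ℕ) (x : ℚ) (y : ℝ) (hx : 0 ≤ x) (h : (x : ℝ) ≤ Real.exp y) :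
    0 ≤ sqD n x ∧ ((sqD n x : ℚ) : ℝ) ≤ Real.exp (2 ^ n * y) := by
  induction n generalizing x y with
  | zero => simpa [sqD] using ⟨hx, h⟩
  | succ n ih =>
    have hx' : (0 : ℝ) ≤ x := by exact_mod_cast hx
    have h1 : ((rdn (x * x) : ℚ) : ℝ) ≤ Real.exp (2 * y) := by
      have a : ((rdn (x * x) : ℚ) : ℝ) ≤ ((x * x : ℚ) : ℝ) := by exact_mod_cast rdn_le (x * x)
      have b : ((x * x : ℚ) : ℝ) ≤ Real.exp y * Real.exp y := by
        push_cast
        exact mul_le_mul h h hx' (Real.exp_pos _).le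
      rw [← Real.exp_add] at b
      refine (a.trans b).trans (le_of_eq ?_)
      ring_nf
    have := ih (rdn (x * x)) (2 * y) (rdn_nonneg _ (mul_nonneg hx hx)) h1
    refine ⟨this.1, this.2.trans (le_of_eq ?_)⟩
    congr 1
    ring

theorem le_sqU (n : ℕ) (x : ℚ) (y : ℝ) (h : Real.exp y ≤ (x : ℝ)) :
    Real.exp (2 ^ n * y) ≤ ((sqU n x : ℚ) : ℝ) := by
  induction n generalizing x y with
  | zero => simpa [sqU] using h
  | succ n ih =>
    have h1 : Real.exp (2 * y) ≤ ((rup (x * x) : ℚ) : ℝ) := by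
      have a : ((x * x : ℚ) : ℝ) ≤ ((rup (x * x) : ℚ) : ℝ) := by exact_mod_cast le_rup (x * x)
      have b : Real.exp y * Real.exp y ≤ ((x * x : ℚ) : ℝ) := by
        push_cast
        exact mul_le_mul h h (Real.exp_pos _).le ((Real.exp_pos _).le.trans h)
      rw [← Real.exp_add] at b
      refine le_trans (le_of_eq ?_) (b.trans a)
      ring_nf
    have := ih (rup (x * x)) (2 * y) h1
    refine le_trans (le_of_eq ?_) this
    congr 1
    ring

/-- error of the Taylor polynomial -/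
def er9 (y : ℚ) : ℚ := |y| ^ 10 * (11 / 36288000)

/-- lower bound of `exp x` -/
def eLo (x : ℚ) : ℚ := sqD 6 (max 0 (rdn (evQ c9 (x / 64) - er9 (x / 64))))

/-- upper bound of `exp x` -/
def eHi (x : ℚ) : ℚ := sqU 6 (rup (evQ c9 (x / 64) + er9 (x / 64)))

theorem eLo_le (x : ℚ) (hx : |x| ≤ 64) : ((eLo x : ℚ) : ℝ) ≤ Real.exp x := by
  have hy : |((x / 64 : ℚ) : ℝ)| ≤ 1 := by
    have : |(x / 64 : ℚ)| ≤ 1 := by rw [abs_div]; norm_num; linarith
    exact_mod_cast this
  have h := exp_c9 _ hy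
  rw [abs_le] at h
  have h1 : ((max 0 (rdn (evQ c9 (x / 64) - er9 (x / 64))) : ℚ) : ℝ) ≤ Real.exp ((x / 64 : ℚ) : ℝ) := by
    rw [Rat.cast_max]
    refine max_le (by simpa using (Real.exp_pos _).le) ?_
    have a : ((rdn (evQ c9 (x / 64) - er9 (x / 64)) : ℚ) : ℝ)
        ≤ ((evQ c9 (x / 64) - er9 (x / 64) : ℚ) : ℝ) := by exact_mod_cast rdn_le _
    rw [Rat.cast_sub, evQ_cast] at a
    have b : ((er9 (x / 64) : ℚ) : ℝ) = |((x / 64 : ℚ) : ℝ)| ^ 10 * (11 / 36288000) := by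
      unfold er9; push_cast; ring
    rw [b] at a
    linarith [h.1]
  have := (sqD_le 6 _ _ (le_max_left _ _) h1).2
  refine this.trans (le_of_eq ?_)
  congr 1
  push_cast
  ring

theorem le_eHi (x : ℚ) (hx : |x| ≤ 64) : Real.exp x ≤ ((eHi x : ℚ) : ℝ) := by
  have hy : |((x / 64 : ℚ) : ℝ)| ≤ 1 := by
    have : |(x / 64 : ℚ)| ≤ 1 := by rw [abs_div]; norm_num; linarith
    exact_mod_cast this
  have h := exp_c9 _ hy
  rw [abs_le] at h
  have h1 : Real.exp ((x / 64 : ℚ) : ℝ) ≤ ((rup (evQ c9 (x / 64) + er9 (x / 64)) : ℚ) : ℝ) := by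
    have a : ((evQ c9 (x / 64) + er9 (x / 64) : ℚ) : ℝ)
        ≤ ((rup (evQ c9 (x / 64) + er9 (x / 64)) : ℚ) : ℝ) := by exact_mod_cast le_rup _
    rw [Rat.cast_add, evQ_cast] at a
    have b : ((er9 (x / 64) : ℚ) : ℝ) = |((x / 64 : ℚ) : ℝ)| ^ 10 * (11 / 36288000) := by
      unfold er9; push_cast; ring
    rw [b] at a
    linarith [h.2]
  have := le_sqU 6 _ _ h1
  refine le_trans (le_of_eq ?_) this
  congr 1
  push_cast
  ring

/-- Taylor polynomial of `s ↦ exp (r s)` of degree 5 -/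
def tay (r : ℚ) : List ℚ := [1, r, r ^ 2 / 2, r ^ 3 / 6, r ^ 4 / 24, r ^ 5 / 120]

theorem exp_tay (r ρ : ℚ) (s : ℝ) (h : |(r : ℝ) * s| ≤ ρ) (hρ : ρ ≤ 1) :
    |Real.exp (r * s) - evP (tay r) s| ≤ ((ρ ^ 6 * (7 / 4320) : ℚ) : ℝ) := by
  have hρ' : (ρ : ℝ) ≤ 1 := by exact_mod_cast hρ
  have h0 := Real.exp_bound (h.trans hρ') (n := 6) (by norm_num)
  have e : ∑ m ∈ Finset.range 6, ((r : ℝ) * s) ^ m / (m.factorial : ℝ) = evP (tay r) s := by
    simp only [Finset.sum_range_succ, Finset.sum_range_zero, Nat.factorial, evP, tay]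
    push_cast
    ring
  rw [e] at h0
  refine h0.trans ?_
  have h1 : |(r : ℝ) * s| ^ 6 ≤ (ρ : ℝ) ^ 6 := pow_le_pow_left₀ (abs_nonneg _) h 6
  have h2 : ((Nat.succ 6 : ℕ) : ℝ) / (((Nat.factorial 6 : ℕ) : ℝ) * ((6 : ℕ) : ℝ)) = 7 / 4320 := by
    norm_num [Nat.factorial]
  rw [h2]
  push_cast
  nlinarith

/-- a term `P(u) exp (a + r u)` -/
structure Tm where
  /-- polynomial -/
  P : List ℚ
  /-- constant -/
  a : ℚ
  /-- rate -/
  r : ℚ

/-- value of a term -/
noncomputable def evT (T : Tm) (u : ℝ) : ℝ := evP T.P u * Real.exp (T.a + T.r * u)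

/-- value of a sum of terms -/
noncomputable def evF : List Tm → ℝ → ℝ
  | [], _ => 0
  | T :: l, u => evT T u + evF l u

/-- side conditions of a piece -/
def okT (T : Tm) (c h : ℚ) : Bool :=
  decide (|T.r| * h ≤ 1) && decide (|T.a + T.r * c| ≤ 64)

/-- contribution to the local polynomial -/
def plT (T : Tm) (c : ℚ) : List ℚ :=
  smP ((eLo (T.a + T.r * c) + eHi (T.a + T.r * c)) / 2) (muP (shP T.P c) (tay T.r))

/-- contribution to the local error -/
def erT (T : Tm) (c h : ℚ) : ℚ :=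
  (eHi (T.a + T.r * c) - eLo (T.a + T.r * c)) / 2 * abP (muP (shP T.P c) (tay T.r)) h +
    eHi (T.a + T.r * c) * abP (shP T.P c) h * ((|T.r| * h) ^ 6 * (7 / 4320))

theorem evT_ge (T : Tm) (c h : ℚ) (s : ℝ) (hs : |s| ≤ h) (hok : okT T c h = true) :
    evP (plT T c) s - ((erT T c h : ℚ) : ℝ) ≤ evT T (c + s) := by
  simp only [okT, Bool.and_eq_true, decide_eq_true_eq] at hok
  obtain ⟨h1, h2⟩ := hok
  have h0 : (0 : ℝ) ≤ h := (abs_nonneg s).trans hs
  set x : ℚ := T.a + T.r * c with hx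
  have hlo := eLo_le x h2
  have hhi := le_eHi x h2
  have hrs : |(T.r : ℝ) * s| ≤ ((|T.r| * h : ℚ) : ℝ) := by
    rw [abs_mul]; push_cast
    exact mul_le_mul_of_nonneg_left hs (abs_nonneg _)
  have ht := exp_tay T.r (|T.r| * h) s hrs h1
  have e1 : evT T (c + s) = evP (shP T.P c) s * (Real.exp x * Real.exp (T.r * s)) := by
    unfold evT
    rw [evP_shP, ← Real.exp_add]
    congr 2
    rw [hx]; push_cast; ring
  have e2 : evP (plT T c) s = (((eLo x : ℚ) : ℝ) + ((eHi x : ℚ) : ℝ)) / 2 *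
      (evP (shP T.P c) s * evP (tay T.r) s) := by
    unfold plT
    rw [evP_smP, evP_muP]
    push_cast; ring
  have e3 : ((erT T c h : ℚ) : ℝ) = (((eHi x : ℚ) : ℝ) - ((eLo x : ℚ) : ℝ)) / 2 *
      ((abP (muP (shP T.P c) (tay T.r)) h : ℚ) : ℝ) +
      ((eHi x : ℚ) : ℝ) * ((abP (shP T.P c) h : ℚ) : ℝ) *
        ((((|T.r| * h) ^ 6 * (7 / 4320) : ℚ)) : ℝ) := by
    unfold erT
    push_cast; ring
  rw [e1, e2, e3]
  have b1 := abs_evP_le (muP (shP T.P c) (tay T.r)) h s hs
  rw [evP_muP] at b1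
  have b2 := abs_evP_le (shP T.P c) h s hs
  set A := evP (shP T.P c) s
  set B := evP (tay T.r) s
  set X := Real.exp (x : ℝ)
  set R := Real.exp ((T.r : ℝ) * s)
  set lo := ((eLo x : ℚ) : ℝ)
  set hi := ((eHi x : ℚ) : ℝ)
  set M1 := ((abP (muP (shP T.P c) (tay T.r)) h : ℚ) : ℝ)
  set M2 := ((abP (shP T.P c) h : ℚ) : ℝ)
  set ε := ((((|T.r| * h) ^ 6 * (7 / 4320) : ℚ)) : ℝ)
  have hX : 0 < X := Real.exp_pos _
  have hA : A * (X * R) = X * (A * B) + X * (A * (R - B)) := by ring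
  rw [hA]
  have c1 : -(X * (M2 * ε)) ≤ X * (A * (R - B)) := by
    have : |A * (R - B)| ≤ M2 * ε := by
      rw [abs_mul]
      exact mul_le_mul b2 ht (abs_nonneg _) ((abs_nonneg _).trans b2)
    have h3 := (abs_le.mp this).1
    nlinarith
  have c2 : X * (M2 * ε) ≤ hi * M2 * ε := by
    have : 0 ≤ M2 * ε := mul_nonneg ((abs_nonneg _).trans b2) ((abs_nonneg _).trans ht)
    nlinarith
  have c3 : (lo + hi) / 2 * (A * B) - (hi - lo) / 2 * M1 ≤ X * (A * B) := by
    have h4 : |(X - (lo + hi) / 2) * (A * B)| ≤ (hi - lo) / 2 * M1 := by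
      rw [abs_mul]
      refine mul_le_mul ?_ b1 (abs_nonneg _) (by linarith)
      rw [abs_le]; constructor <;> linarith
    have h5 := (abs_le.mp h4).1
    nlinarith
  linarith

/-- local polynomial of a sum of terms -/
def plF : List Tm → ℚ → List ℚ
  | [], _ => []
  | T :: l, c => addP (plT T c) (plF l c)

/-- local error of a sum of terms -/
def erF : List Tm → ℚ → ℚ → ℚ
  | [], _, _ => 0
  | T :: l, c, h => erT T c h + erF l c h

/-- side conditions -/
def okF : List Tm → ℚ → ℚ → Bool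
  | [], _, _ => true
  | T :: l, c, h => okT T c h && okF l c h

theorem evF_ge (l : List Tm) (c h : ℚ) (s : ℝ) (hs : |s| ≤ h) (hok : okF l c h = true) :
    evP (plF l c) s - ((erF l c h : ℚ) : ℝ) ≤ evF l (c + s) := by
  induction l with
  | nil => simp [plF, erF, evF, evP]
  | cons T l ih =>
    simp only [okF, Bool.and_eq_true] at hok
    have a := evT_ge T c h s hs hok.1
    have b := ih hok.2
    simp only [plF, erF, evF, evP_addP]
    push_cast
    linarith

/-- nonnegativity test of `r0 + r1 s + r2 s^2 + ... - e` on `[-h, h]` -/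
def posL (l : List ℚ) (e h : ℚ) : Bool :=
  match l with
  | r0 :: r1 :: r2 :: rest =>
    decide (0 ≤ r0 - abP rest h * h ^ 3 - e - |r1| * h + min r2 0 * h ^ 2) ||
      (decide (0 ≤ r0 - abP rest h * h ^ 3 - e) && decide (0 < r2) &&
        decide (r1 ^ 2 ≤ 4 * r2 * (r0 - abP rest h * h ^ 3 - e)))
  | _ => false

theorem posL_sound (l : List ℚ) (e h : ℚ) (s : ℝ) (hs : |s| ≤ h) (hp : posL l e h = true) :
    (e : ℝ) ≤ evP l s := by
  match l, hp with
  | r0 :: r1 :: r2 :: rest, hp =>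
    have h0 : (0 : ℝ) ≤ h := (abs_nonneg s).trans hs
    have b := abs_evP_le rest h s hs
    have ev : evP (r0 :: r1 :: r2 :: rest) s
        = (r0 : ℝ) + r1 * s + r2 * s ^ 2 + s ^ 3 * evP rest s := by
      simp only [evP]; ring
    have c1 : -(((abP rest h : ℚ) : ℝ) * (h : ℝ) ^ 3) ≤ s ^ 3 * evP rest s := by
      have : |s ^ 3 * evP rest s| ≤ (h : ℝ) ^ 3 * ((abP rest h : ℚ) : ℝ) := by
        rw [abs_mul, abs_pow]
        exact mul_le_mul (pow_le_pow_left₀ (abs_nonneg _) hs 3) b (abs_nonneg _) (by positivity)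
      have := (abs_le.mp this).1
      linarith
    simp only [posL, Bool.or_eq_true, Bool.and_eq_true, decide_eq_true_eq] at hp
    rw [ev]
    rcases hp with hp | ⟨⟨hp1, hp2⟩, hp3⟩
    · have hp' : (0 : ℝ) ≤ (r0 : ℝ) - ((abP rest h : ℚ) : ℝ) * (h : ℝ) ^ 3 - e - |(r1 : ℝ)| * h
          + min (r2 : ℝ) 0 * (h : ℝ) ^ 2 := by exact_mod_cast hp
      have d1 : -(|(r1 : ℝ)| * h) ≤ r1 * s := by
        have : |(r1 : ℝ) * s| ≤ |(r1 : ℝ)| * h := by
          rw [abs_mul]; exact mul_le_mul_of_nonneg_left hs (abs_nonneg _)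
        exact (abs_le.mp this).1
      have d2 : min (r2 : ℝ) 0 * (h : ℝ) ^ 2 ≤ r2 * s ^ 2 := by
        have h1 : s ^ 2 ≤ (h : ℝ) ^ 2 := by
          rw [← sq_abs s]; exact pow_le_pow_left₀ (abs_nonneg _) hs 2
        have h2 : min (r2 : ℝ) 0 ≤ r2 := min_le_left _ _
        have h3 : min (r2 : ℝ) 0 ≤ 0 := min_le_right _ _
        nlinarith [sq_nonneg s]
      linarith
    · have q1 : (0 : ℝ) ≤ (r0 : ℝ) - ((abP rest h : ℚ) : ℝ) * (h : ℝ) ^ 3 - e := by
        exact_mod_cast hp1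
      have q2 : (0 : ℝ) < r2 := by exact_mod_cast hp2
      have q3 : (r1 : ℝ) ^ 2
          ≤ 4 * r2 * ((r0 : ℝ) - ((abP rest h : ℚ) : ℝ) * (h : ℝ) ^ 3 - e) := by
        exact_mod_cast hp3
      have q4 : 0 ≤ (r0 : ℝ) - ((abP rest h : ℚ) : ℝ) * (h : ℝ) ^ 3 - e + r1 * s + r2 * s ^ 2 := by
        have : 0 ≤ 4 * r2 * ((r0 : ℝ) - ((abP rest h : ℚ) : ℝ) * (h : ℝ) ^ 3 - e
            + r1 * s + r2 * s ^ 2) := by
          nlinarith [sq_nonneg (2 * (r2 : ℝ) * s + r1)]
        by_contra hc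
        have hc' := not_le.mp hc
        nlinarith
      linarith

/-- the check of one piece `[c - h, c + h]` -/
def chk1 (l : List Tm) (c h : ℚ) : Bool := okF l c h && posL (plF l c) (erF l c h) h

theorem chk1_sound (l : List Tm) (c h : ℚ) (u : ℝ) (hu : |u - c| ≤ h) (hc : chk1 l c h = true) :
    0 ≤ evF l u := by
  simp only [chk1, Bool.and_eq_true] at hc
  have a := evF_ge l c h (u - c) hu hc.1
  have b := posL_sound _ _ _ _ hu hc.2
  have e : (c : ℝ) + (u - c) = u := by ring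
  rw [e] at a
  linarith

end Pool.Agent.H9.RM
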