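import Pool.Agent.H9.RM.Shape

/-!
Instances of the two variable inequality.
-/

namespace Pool.Agent.H9.RM

/-- parameters -/
def s50 : Shp := ⟨9419 / 10000, 1699 / 2500, 1699 / 2500, 483 / 500, 57 / 250, 57 / 250, 1, 1 / 2, 1 / 2, 1 / 2⟩

/-- pieces -/
def l50 : List (ℚ × ℚ × ℚ × ℚ) :=
  [(-13 / 4, 3 / 4, -31 / 128, -3 / 64),
   (-15 / 8, 5 / 8, -23 / 64, -3 / 32),
   (-31 / 32, 9 / 32, -55 / 128, -9 / 64),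
   (-33 / 64, 11 / 64, -29 / 64, -11 / 64),
   (0, 11 / 32, -59 / 128, -7 / 32),
   (31 / 64, 9 / 64, -57 / 128, -17 / 64),
   (53 / 64, 13 / 64, -55 / 128, -19 / 64),
   (23 / 16, 13 / 32, -11 / 32, -3 / 8),
   (85 / 32, 13 / 16, 1 / 128, -35 / 64),
   (35 / 8, 29 / 32, 127 / 128, -53 / 64),
   (425 / 64, 87 / 64, 43 / 16, -73 / 64),
   (19 / 2, 3 / 2, 629 / 128, -91 / 64),
   (13, 2, 917 / 128, -13 / 8)]

theorem ok50 : s50.ok 4 l50 12 = true := by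
  decide +kernel

theorem j50 (y z : ℝ) :
    ((9419 / 10000 : ℚ) : ℝ) + ((1699 / 2500 : ℚ) : ℝ) * y + ((1699 / 2500 : ℚ) : ℝ) * z +
        ((483 / 500 : ℚ) : ℝ) * (y * z * Real.exp (((57 / 250 : ℚ) : ℝ) * y + ((57 / 250 : ℚ) : ℝ) * z))
      ≤ ((1 : ℚ) : ℝ) * Real.exp (y + ((1 / 2 : ℚ) : ℝ) * z) :=
  Shp.ok_sound s50 4 l50 12 ok50 y z

/-- parameters -/
def s40 : Shp := ⟨4507 / 5000, 5903 / 10000, 5903 / 10000, 747 / 1000, 41 / 200, 41 / 200, 1, 2 / 5, 1 / 2, 1 / 2⟩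

/-- pieces -/
def l40 : List (ℚ × ℚ × ℚ × ℚ) :=
  [(-13 / 4, 3 / 4, -13 / 32, -5 / 64),
   (-15 / 8, 5 / 8, -67 / 128, -1 / 8),
   (-31 / 32, 9 / 32, -79 / 128, -3 / 16),
   (-29 / 64, 15 / 64, -83 / 128, -15 / 64),
   (1 / 8, 11 / 32, -21 / 32, -9 / 32),
   (43 / 64, 13 / 64, -81 / 128, -11 / 32),
   (59 / 64, 3 / 64, -5 / 8, -23 / 64),
   (17 / 16, 3 / 32, -39 / 64, -3 / 8),
   (43 / 32, 3 / 16, -35 / 64, -27 / 64),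
   (61 / 32, 3 / 8, -57 / 128, -31 / 64),
   (97 / 32, 3 / 4, -9 / 64, -39 / 64),
   (157 / 32, 9 / 8, 23 / 32, -53 / 64),
   (241 / 32, 3 / 2, 33 / 16, -67 / 64),
   (353 / 32, 2, 483 / 128, -79 / 64),
   (481 / 32, 2, 661 / 128, -43 / 32)]

theorem ok40 : s40.ok 4 l40 16 = true := by
  decide +kernel

theorem j40 (y z : ℝ) :
    ((4507 / 5000 : ℚ) : ℝ) + ((5903 / 10000 : ℚ) : ℝ) * y + ((5903 / 10000 : ℚ) : ℝ) * z +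
        ((747 / 1000 : ℚ) : ℝ) * (y * z * Real.exp (((41 / 200 : ℚ) : ℝ) * y + ((41 / 200 : ℚ) : ℝ) * z))
      ≤ ((1 : ℚ) : ℝ) * Real.exp (y + ((2 / 5 : ℚ) : ℝ) * z) :=
  Shp.ok_sound s40 4 l40 16 ok40 y z

/-- parameters -/
def s60 : Shp := ⟨4839 / 5000, 379 / 500, 379 / 500, 59 / 50, 51 / 200, 51 / 200, 1, 3 / 5, 1 / 2, 1 / 2⟩

/-- pieces -/
def l60 : List (ℚ × ℚ × ℚ × ℚ) :=
  [(-9 / 4, 3 / 4, -13 / 64, -3 / 64),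
   (-37 / 32, 11 / 32, -9 / 32, -3 / 32),
   (-39 / 64, 13 / 64, -39 / 128, -1 / 8),
   (-3 / 16, 7 / 32, -41 / 128, -5 / 32),
   (17 / 64, 15 / 64, -5 / 16, -3 / 16),
   (11 / 16, 3 / 16, -19 / 64, -7 / 32),
   (5 / 4, 3 / 8, -29 / 128, -19 / 64),
   (19 / 8, 3 / 4, 1 / 16, -29 / 64),
   (127 / 32, 27 / 32, 143 / 128, -25 / 32),
   (23 / 4, 15 / 16, 47 / 16, -37 / 32),
   (495 / 64, 67 / 64, 349 / 64, -49 / 32),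
   (329 / 32, 3 / 2, 67 / 8, -119 / 64)]

theorem ok60 : s60.ok 3 l60 10 = true := by
  decide +kernel

theorem j60 (y z : ℝ) :
    ((4839 / 5000 : ℚ) : ℝ) + ((379 / 500 : ℚ) : ℝ) * y + ((379 / 500 : ℚ) : ℝ) * z +
        ((59 / 50 : ℚ) : ℝ) * (y * z * Real.exp (((51 / 200 : ℚ) : ℝ) * y + ((51 / 200 : ℚ) : ℝ) * z))
      ≤ ((1 : ℚ) : ℝ) * Real.exp (y + ((3 / 5 : ℚ) : ℝ) * z) :=
  Shp.ok_sound s60 3 l60 10 ok60 y z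

end Pool.Agent.H9.RM
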