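import Pool.Agent.H9.RM.ExpPoly

/-!
Kernel certificates for the two variable inequality
`w0 + w1 y + w2 z + om y z exp (mu y + mu' z) ≤ la exp (y + t z)` (all real `y`, `z`),
reduced to one variable: with `y = a1 (u + v)`, `z = a2 (u - v)` the difference is convex in `v`.
-/

namespace Pool.Agent.H9.RM

/-- parameters of a two variable inequality -/
structure Shp where
  /-- constant -/
  w0 : ℚ
  /-- coefficient of `y` -/
  w1 : ℚ
  /-- coefficient of `z` -/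
  w2 : ℚ
  /-- coefficient of the product term -/
  om : ℚ
  /-- rate in `y` -/
  mu : ℚ
  /-- rate in `z` -/
  mu' : ℚ
  /-- factor of the exponential -/
  la : ℚ
  /-- tilt -/
  t : ℚ
  /-- scale of `y` -/
  a1 : ℚ
  /-- scale of `z` -/
  a2 : ℚ

namespace Shp

/-- rate of the exponential in `u` -/
def p (S : Shp) : ℚ := S.a1 + S.t * S.a2

/-- rate of the exponential in `v` -/
def k (S : Shp) : ℚ := S.a1 - S.t * S.a2

/-- coefficient of the quadratic term -/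
def g (S : Shp) : ℚ := S.om * S.a1 * S.a2

/-- rate of the quadratic term -/
def nu (S : Shp) : ℚ := 2 * S.mu * S.a1

/-- coefficient of the linear term -/
def c (S : Shp) : ℚ := 2 * S.w1 * S.a1

/-- the one variable function belonging to the tangent point `m + n u` -/
def pcs (S : Shp) (m n : ℚ) : List Tm :=
  [⟨[S.la * (1 - S.k * m), -(S.la * S.k * n)], S.k * m, S.p + S.k * n⟩,
   ⟨[-((S.la * S.k) ^ 2 / (4 * S.g))], 2 * S.k * m, 2 * S.p + 2 * S.k * n - S.nu⟩,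
   ⟨[-S.w0, -S.c], 0, 0⟩,
   ⟨[0, 0, -S.g], 0, S.nu⟩]

/-- the inequality in the coordinates `u`, `v` -/
def Ineq (S : Shp) (u v : ℝ) : Prop :=
  (S.w0 : ℝ) + S.c * u + S.g * u ^ 2 * Real.exp (S.nu * u)
    ≤ S.la * Real.exp (S.p * u + S.k * v) + S.g * v ^ 2 * Real.exp (S.nu * u)

theorem ineq_of_pcs (S : Shp) (m n : ℚ) (u v : ℝ) (hla : 0 ≤ S.la) (hg : 0 < S.g)
    (h : 0 ≤ evF (S.pcs m n) u) : S.Ineq u v := by
  have hla' : (0 : ℝ) ≤ S.la := by exact_mod_cast hla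
  have hg' : (0 : ℝ) < S.g := by exact_mod_cast hg
  unfold Ineq
  set v0 : ℝ := m + n * u with hv0
  set X := Real.exp (S.p * u + S.k * v0) with hX
  set N := Real.exp (S.nu * u) with hN
  have hNp : 0 < N := Real.exp_pos _
  have hXp : 0 < X := Real.exp_pos _
  have e1 : Real.exp (((S.k * m : ℚ) : ℝ) + ((S.p + S.k * n : ℚ) : ℝ) * u) = X := by
    rw [hX, hv0]; congr 1; push_cast; ring
  have e2 : Real.exp (((2 * S.k * m : ℚ) : ℝ) + ((2 * S.p + 2 * S.k * n - S.nu : ℚ) : ℝ) * u)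
      = X ^ 2 / N := by
    rw [hX, hv0, hN, ← Real.exp_nat_mul, ← Real.exp_sub]; congr 1; push_cast; ring
  have e3 : Real.exp (((0 : ℚ) : ℝ) + ((0 : ℚ) : ℝ) * u) = 1 := by simp
  have e4 : Real.exp (((0 : ℚ) : ℝ) + ((S.nu : ℚ) : ℝ) * u) = N := by
    rw [hN]; congr 1; push_cast; ring
  have hev : evF (S.pcs m n) u = S.la * X * (1 - S.k * v0) - (S.la * S.k) ^ 2 / (4 * S.g) * (X ^ 2 / N)
      - (S.w0 + S.c * u) - S.g * u ^ 2 * N := by
    simp only [pcs, evF, evT, evP, e1, e2, e3, e4]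
    push_cast
    rw [hv0]
    ring
  rw [hev] at h
  have t1 : X * (1 + S.k * (v - v0)) ≤ Real.exp (S.p * u + S.k * v) := by
    have : Real.exp (S.p * u + S.k * v) = X * Real.exp (S.k * (v - v0)) := by
      rw [hX, ← Real.exp_add]; congr 1; ring
    rw [this]
    have := Real.add_one_le_exp ((S.k : ℝ) * (v - v0))
    nlinarith
  have t2 := mul_le_mul_of_nonneg_left t1 hla'
  have sq : 0 ≤ S.g * N * (v + S.la * S.k * X / (2 * S.g * N)) ^ 2 := by positivity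
  have sq' : S.g * N * (v + S.la * S.k * X / (2 * S.g * N)) ^ 2
      = S.g * v ^ 2 * N + S.la * S.k * X * v + (S.la * S.k) ^ 2 / (4 * S.g) * (X ^ 2 / N) := by
    field_simp
    ring
  rw [sq'] at sq
  nlinarith

/-- chain of pieces `(c, h, m, n)` covering `[A, B]` -/
def chain (S : Shp) : ℚ → List (ℚ × ℚ × ℚ × ℚ) → ℚ → Bool
  | A, [], B => decide (B ≤ A)
  | A, q :: l, B => decide (q.1 - q.2.1 ≤ A) && chk1 (S.pcs q.2.2.1 q.2.2.2) q.1 q.2.1 &&
      chain S (q.1 + q.2.1) l B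

theorem chain_sound (S : Shp) (hla : 0 ≤ S.la) (hg : 0 < S.g) (l : List (ℚ × ℚ × ℚ × ℚ)) (A B : ℚ)
    (h : S.chain A l B = true) (u v : ℝ) (h1 : (A : ℝ) ≤ u) (h2 : u < B) : S.Ineq u v := by
  induction l generalizing A with
  | nil =>
    simp only [chain, decide_eq_true_eq] at h
    have : (B : ℝ) ≤ A := by exact_mod_cast h
    linarith
  | cons q l ih =>
    simp only [chain, Bool.and_eq_true, decide_eq_true_eq] at h
    obtain ⟨⟨h3, h4⟩, h5⟩ := h
    by_cases hu : u ≤ ((q.1 + q.2.1 : ℚ) : ℝ)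
    · have h3' : ((q.1 : ℝ) - q.2.1) ≤ A := by exact_mod_cast h3
      push_cast at hu
      refine ineq_of_pcs S q.2.2.1 q.2.2.2 u v hla hg (chk1_sound _ _ _ u ?_ h4)
      rw [abs_le]
      constructor <;> linarith
    · exact ih _ h5 (not_le.mp hu).le

/-- all coefficients are nonnegative -/
def nnP : List ℚ → Bool
  | [] => true
  | a :: l => decide (0 ≤ a) && nnP l

theorem nnP_sound (l : List ℚ) (h : nnP l = true) (x : ℝ) (hx : 0 ≤ x) : 0 ≤ evP l x := by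
  induction l with
  | nil => simp [evP]
  | cons a l ih =>
    simp only [nnP, Bool.and_eq_true, decide_eq_true_eq] at h
    have h1 : (0 : ℝ) ≤ a := by exact_mod_cast h.1
    have h2 := ih h.2
    simp only [evP]
    positivity

/-- check of the left tail `u ≤ -A` -/
def lft (S : Shp) (A : ℚ) : Bool :=
  decide (0 ≤ A) && decide (0 ≤ S.nu) && decide (0 ≤ S.c) && decide (S.w0 ≤ S.c * A) &&
    nnP (shP (addP (muP [-S.w0, S.c] [1, S.nu, S.nu ^ 2 / 2, S.nu ^ 3 / 6]) [0, 0, -S.g]) A)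

theorem lft_sound (S : Shp) (hla : 0 ≤ S.la) (hg : 0 < S.g) (A : ℚ) (h : S.lft A = true) (u v : ℝ)
    (hu : u ≤ -(A : ℝ)) : S.Ineq u v := by
  have hla' : (0 : ℝ) ≤ S.la := by exact_mod_cast hla
  have hg' : (0 : ℝ) < S.g := by exact_mod_cast hg
  simp only [lft, Bool.and_eq_true, decide_eq_true_eq] at h
  obtain ⟨⟨⟨⟨h0, h1⟩, h2⟩, h3⟩, h4⟩ := h
  have h0' : (0 : ℝ) ≤ A := by exact_mod_cast h0
  have h1' : (0 : ℝ) ≤ S.nu := by exact_mod_cast h1
  have h2' : (0 : ℝ) ≤ S.c := by exact_mod_cast h2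
  have h3' : (S.w0 : ℝ) ≤ S.c * A := by exact_mod_cast h3
  have h5 := nnP_sound _ h4 (-u - A) (by linarith)
  rw [evP_shP] at h5
  have e : (A : ℝ) + (-u - A) = -u := by ring
  rw [e, evP_addP, evP_muP] at h5
  simp only [evP] at h5
  push_cast at h5
  unfold Ineq
  set x := -u with hx
  have hux : u = -x := by rw [hx]; ring
  have hxA : (A : ℝ) ≤ x := by linarith
  have hx0 : 0 ≤ x := by linarith
  have hnx : 0 ≤ (S.nu : ℝ) * x := by positivity
  have h6 : 1 + (S.nu : ℝ) * x + (S.nu * x) ^ 2 / 2 + (S.nu * x) ^ 3 / 6 ≤ Real.exp (S.nu * x) := by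
    have := Real.sum_le_exp_of_nonneg hnx 4
    simp only [Finset.sum_range_succ, Finset.sum_range_zero, Nat.factorial] at this
    refine le_trans (le_of_eq ?_) this
    push_cast; ring
  have h7 : 0 ≤ (S.c : ℝ) * x - S.w0 := by nlinarith
  have h8 : (S.g : ℝ) * x ^ 2 ≤ (S.c * x - S.w0) * Real.exp (S.nu * x) := by
    have := mul_le_mul_of_nonneg_left h6 h7
    nlinarith
  have h9 : (S.g : ℝ) * x ^ 2 * Real.exp (-(S.nu * x)) ≤ S.c * x - S.w0 := by
    have hp := Real.exp_pos (-((S.nu : ℝ) * x))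
    have h10 := mul_le_mul_of_nonneg_right h8 hp.le
    have h11 : Real.exp ((S.nu : ℝ) * x) * Real.exp (-(S.nu * x)) = 1 := by
      rw [← Real.exp_add]; simp
    calc (S.g : ℝ) * x ^ 2 * Real.exp (-(S.nu * x))
        ≤ (S.c * x - S.w0) * Real.exp (S.nu * x) * Real.exp (-(S.nu * x)) := h10
      _ = (S.c * x - S.w0) * (Real.exp (S.nu * x) * Real.exp (-(S.nu * x))) := by ring
      _ = S.c * x - S.w0 := by rw [h11]; ring
  have h12 : (S.nu : ℝ) * u = -(S.nu * x) := by rw [hux]; ring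
  have hb : 0 ≤ (S.la : ℝ) * Real.exp (S.p * u + S.k * v) := by positivity
  have hc : 0 ≤ (S.g : ℝ) * v ^ 2 * Real.exp (S.nu * u) := by positivity
  rw [h12] at hc ⊢
  rw [hux] at hb ⊢
  have : (-x) ^ 2 = x ^ 2 := by ring
  rw [this]
  linarith

/-- `eta = p - k` -/
def eta (S : Shp) : ℚ := S.p - S.k

/-- check of the right tail `u ≥ B` -/
def rgt (S : Shp) (B : ℚ) : Bool :=
  decide (0 ≤ B) && decide (0 < S.k) && decide (0 ≤ S.nu) && decide (S.nu ≤ S.eta) &&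
    decide (|(S.eta - S.nu) * B| ≤ 64) && decide (|S.eta * B| ≤ 64) && decide (|S.nu * B| ≤ 64) &&
    decide (2 * S.g * B ≤ S.k * S.la * eLo ((S.eta - S.nu) * B)) &&
    decide (2 * S.g ≤ S.k * (S.eta - S.nu) * S.la * eLo ((S.eta - S.nu) * B)) &&
    decide (2 * (S.w0 + S.c * B) ≤ S.la * eLo (S.eta * B)) &&
    decide (2 * S.c ≤ S.la * S.eta * eLo (S.eta * B)) &&
    decide (0 ≤ S.w0) && decide (0 ≤ S.c) &&
    decide (S.w0 + S.c * B ≤ S.g * (1 / (4 * S.k ^ 2) + B / S.k) * eLo (S.nu * B)) &&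
    decide (S.c ≤ S.g / S.k * eLo (S.nu * B))

theorem exp_grow (g B u : ℝ) : Real.exp (g * B) * (1 + g * (u - B)) ≤ Real.exp (g * u) := by
  have h1 : Real.exp (g * u) = Real.exp (g * B) * Real.exp (g * (u - B)) := by
    rw [← Real.exp_add]; congr 1; ring
  rw [h1]
  have h2 := Real.add_one_le_exp (g * (u - B))
  have h3 := Real.exp_pos (g * B)
  nlinarith

theorem rgt_sound (S : Shp) (hla : 0 ≤ S.la) (hg : 0 < S.g) (B : ℚ) (h : S.rgt B = true) (u v : ℝ)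
    (hu : (B : ℝ) ≤ u) : S.Ineq u v := by
  have hla' : (0 : ℝ) ≤ S.la := by exact_mod_cast hla
  have hg' : (0 : ℝ) < S.g := by exact_mod_cast hg
  simp only [rgt, Bool.and_eq_true, decide_eq_true_eq] at h
  obtain ⟨⟨⟨⟨⟨⟨⟨⟨⟨⟨⟨⟨⟨⟨q0, q1⟩, q2⟩, q3⟩, q4⟩, q5⟩, q6⟩, q7⟩, q8⟩, q9⟩, q10⟩, q11⟩, q12⟩, q13⟩, q14⟩ := h
  have r0 : (0 : ℝ) ≤ B := by exact_mod_cast q0
  have r1 : (0 : ℝ) < S.k := by exact_mod_cast q1
  have r2 : (0 : ℝ) ≤ S.nu := by exact_mod_cast q2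
  have r3 : (S.nu : ℝ) ≤ S.eta := by exact_mod_cast q3
  have r11 : (0 : ℝ) ≤ S.w0 := by exact_mod_cast q11
  have r12 : (0 : ℝ) ≤ S.c := by exact_mod_cast q12
  have L1 := eLo_le _ q4
  have L2 := eLo_le _ q5
  have L3 := eLo_le _ q6
  have r7 : 2 * (S.g : ℝ) * B ≤ S.k * S.la * ((eLo ((S.eta - S.nu) * B) : ℚ) : ℝ) := by
    exact_mod_cast q7
  have r8 : 2 * (S.g : ℝ) ≤ S.k * (S.eta - S.nu) * S.la * ((eLo ((S.eta - S.nu) * B) : ℚ) : ℝ) := by
    exact_mod_cast q8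
  have r9 : 2 * ((S.w0 : ℝ) + S.c * B) ≤ S.la * ((eLo (S.eta * B) : ℚ) : ℝ) := by exact_mod_cast q9
  have r10 : 2 * (S.c : ℝ) ≤ S.la * S.eta * ((eLo (S.eta * B) : ℚ) : ℝ) := by exact_mod_cast q10
  have r13 : (S.w0 : ℝ) + S.c * B
      ≤ S.g * (1 / (4 * S.k ^ 2) + B / S.k) * ((eLo (S.nu * B) : ℚ) : ℝ) := by exact_mod_cast q13
  have r14 : (S.c : ℝ) ≤ S.g / S.k * ((eLo (S.nu * B) : ℚ) : ℝ) := by exact_mod_cast q14
  have x1 : Real.exp (((S.eta - S.nu) * B : ℚ) : ℝ) = Real.exp (((S.eta : ℝ) - S.nu) * B) := by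
    congr 1; push_cast; ring
  have x2 : Real.exp ((S.eta * B : ℚ) : ℝ) = Real.exp ((S.eta : ℝ) * B) := by
    congr 1; push_cast; ring
  have x3 : Real.exp ((S.nu * B : ℚ) : ℝ) = Real.exp ((S.nu : ℝ) * B) := by
    congr 1; push_cast; ring
  rw [x1] at L1
  rw [x2] at L2
  rw [x3] at L3
  have G1 := exp_grow ((S.eta : ℝ) - S.nu) B u
  have G2 := exp_grow (S.eta : ℝ) B u
  have G3 := exp_grow (S.nu : ℝ) B u
  have hd : 0 ≤ u - B := by linarith
  have hu0 : 0 ≤ u := by linarith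
  have et0 : (0 : ℝ) ≤ S.eta := r2.trans r3
  have th0 : (0 : ℝ) ≤ (S.eta : ℝ) - S.nu := by linarith
  -- the three growth facts
  have F1 : 2 * (S.g : ℝ) * u ≤ S.k * S.la * Real.exp (((S.eta : ℝ) - S.nu) * u) := by
    have a1 : 2 * (S.g : ℝ) * B ≤ S.k * S.la * Real.exp (((S.eta : ℝ) - S.nu) * B) :=
      r7.trans (mul_le_mul_of_nonneg_left L1 (by positivity))
    have a2 : 2 * (S.g : ℝ) ≤ S.k * (S.eta - S.nu) * S.la * Real.exp (((S.eta : ℝ) - S.nu) * B) :=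
      r8.trans (mul_le_mul_of_nonneg_left L1 (by positivity))
    have a3 := mul_le_mul_of_nonneg_left G1 (show (0 : ℝ) ≤ S.k * S.la by positivity)
    have a4 := mul_le_mul_of_nonneg_right a2 hd
    nlinarith
  have F2 : 2 * ((S.w0 : ℝ) + S.c * u) ≤ S.la * Real.exp ((S.eta : ℝ) * u) := by
    have a1 : 2 * ((S.w0 : ℝ) + S.c * B) ≤ S.la * Real.exp ((S.eta : ℝ) * B) :=
      r9.trans (mul_le_mul_of_nonneg_left L2 (by positivity))
    have a2 : 2 * (S.c : ℝ) ≤ S.la * S.eta * Real.exp ((S.eta : ℝ) * B) :=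
      r10.trans (mul_le_mul_of_nonneg_left L2 (by positivity))
    have a3 := mul_le_mul_of_nonneg_left G2 hla'
    have a4 := mul_le_mul_of_nonneg_right a2 hd
    nlinarith
  have F3 : (S.w0 : ℝ) + S.c * u ≤ S.g * (1 / (4 * S.k ^ 2) + u / S.k) * Real.exp ((S.nu : ℝ) * B) := by
    have a1 : (S.w0 : ℝ) + S.c * B
        ≤ S.g * (1 / (4 * S.k ^ 2) + B / S.k) * Real.exp ((S.nu : ℝ) * B) :=
      r13.trans (mul_le_mul_of_nonneg_left L3 (by positivity))
    have a2 : (S.c : ℝ) ≤ S.g / S.k * Real.exp ((S.nu : ℝ) * B) :=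
      r14.trans (mul_le_mul_of_nonneg_left L3 (by positivity))
    have a4 := mul_le_mul_of_nonneg_right a2 hd
    have a5 : (S.g : ℝ) * (1 / (4 * S.k ^ 2) + u / S.k) * Real.exp ((S.nu : ℝ) * B)
        = S.g * (1 / (4 * S.k ^ 2) + B / S.k) * Real.exp ((S.nu : ℝ) * B)
          + S.g / S.k * Real.exp ((S.nu : ℝ) * B) * (u - B) := by ring
    rw [a5]
    linarith
  unfold Ineq
  obtain ⟨x, hx⟩ : ∃ x : ℝ, v = x - u := ⟨u + v, by ring⟩
  have hN : Real.exp ((S.nu : ℝ) * B) ≤ Real.exp ((S.nu : ℝ) * u) :=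
    Real.exp_le_exp.mpr (mul_le_mul_of_nonneg_left hu r2)
  have hNp := Real.exp_pos ((S.nu : ℝ) * u)
  have hEp := Real.exp_pos ((S.eta : ℝ) * u)
  have hsplit : Real.exp ((S.eta : ℝ) * u)
      = Real.exp ((S.nu : ℝ) * u) * Real.exp (((S.eta : ℝ) - S.nu) * u) := by
    rw [← Real.exp_add]; congr 1; ring
  have hmain : Real.exp (S.p * u + S.k * v)
      = Real.exp ((S.eta : ℝ) * u) * Real.exp ((S.k : ℝ) * x) := by
    rw [← Real.exp_add]; congr 1
    have : (S.eta : ℝ) = S.p - S.k := by unfold eta; push_cast; ring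
    rw [this, hx]; ring
  have hlin : S.la * Real.exp ((S.eta : ℝ) * u) * (1 + S.k * x)
      ≤ S.la * Real.exp (S.p * u + S.k * v) := by
    rw [hmain]
    have h1 := Real.add_one_le_exp ((S.k : ℝ) * x)
    have h2 : 0 ≤ (S.la : ℝ) * Real.exp ((S.eta : ℝ) * u) := by positivity
    have := mul_le_mul_of_nonneg_left h1 h2
    nlinarith
  have hpos : 0 ≤ (S.la : ℝ) * Real.exp (S.p * u + S.k * v) := by positivity
  rcases le_total 0 x with hx0 | hx0
  · -- x ≥ 0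
    have b1 := mul_le_mul_of_nonneg_left F1 (show 0 ≤ Real.exp ((S.nu : ℝ) * u) * x by positivity)
    have b2 : Real.exp ((S.nu : ℝ) * u) * x * (S.k * S.la * Real.exp (((S.eta : ℝ) - S.nu) * u))
        = S.la * Real.exp ((S.eta : ℝ) * u) * (S.k * x) := by rw [hsplit]; ring
    rw [b2] at b1
    have b3 : 0 ≤ (S.g : ℝ) * x ^ 2 * Real.exp ((S.nu : ℝ) * u) := by positivity
    have b4 : (S.g : ℝ) * v ^ 2 * Real.exp ((S.nu : ℝ) * u)
        = S.g * x ^ 2 * Real.exp ((S.nu : ℝ) * u) - Real.exp ((S.nu : ℝ) * u) * x * (2 * S.g * u)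
          + S.g * u ^ 2 * Real.exp ((S.nu : ℝ) * u) := by rw [hx]; ring
    rw [b4]
    have b5 : 0 ≤ (S.w0 : ℝ) + S.c * u := by positivity
    nlinarith
  · by_cases hxk : -1 ≤ 2 * (S.k : ℝ) * x
    · have b1 : S.la * Real.exp ((S.eta : ℝ) * u) * (1 / 2)
          ≤ S.la * Real.exp ((S.eta : ℝ) * u) * (1 + S.k * x) :=
        mul_le_mul_of_nonneg_left (by linarith) (by positivity)
      have b2 : (S.g : ℝ) * u ^ 2 * Real.exp ((S.nu : ℝ) * u)
          ≤ S.g * v ^ 2 * Real.exp ((S.nu : ℝ) * u) := by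
        have : u ^ 2 ≤ v ^ 2 := by rw [hx]; nlinarith
        have h1 := mul_le_mul_of_nonneg_left this hg'.le
        exact mul_le_mul_of_nonneg_right h1 hNp.le
      linarith
    · have hxk' := not_le.mp hxk
      have b0 : 1 / (2 * (S.k : ℝ)) ≤ -x := by
        rw [div_le_iff₀ (by positivity)]; linarith
      have b1 : u ^ 2 + (1 / (4 * (S.k : ℝ) ^ 2) + u / S.k) ≤ v ^ 2 := by
        have c0 : 0 ≤ 1 / (2 * (S.k : ℝ)) := by positivity
        have c1 : (1 / (2 * (S.k : ℝ))) ^ 2 = 1 / (4 * (S.k : ℝ) ^ 2) := by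
          field_simp; norm_num
        have c2 : (1 / (2 * (S.k : ℝ))) * u * 2 = u / S.k := by
          field_simp
        rw [← c1, ← c2, hx]
        nlinarith
      have b2 := mul_le_mul_of_nonneg_left b1 (show 0 ≤ (S.g : ℝ) * Real.exp ((S.nu : ℝ) * u) by positivity)
      have b3 : (S.g : ℝ) * (1 / (4 * S.k ^ 2) + u / S.k) * Real.exp ((S.nu : ℝ) * B)
          ≤ S.g * (1 / (4 * S.k ^ 2) + u / S.k) * Real.exp ((S.nu : ℝ) * u) :=
        mul_le_mul_of_nonneg_left hN (by positivity)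
      nlinarith

/-- the whole certificate -/
def ok (S : Shp) (A : ℚ) (l : List (ℚ × ℚ × ℚ × ℚ)) (B : ℚ) : Bool :=
  decide (0 < S.la) && decide (0 < S.om) && decide (0 < S.a1) && decide (0 < S.a2) &&
    decide (S.w1 * S.a1 = S.w2 * S.a2) && decide (S.mu * S.a1 = S.mu' * S.a2) &&
    S.lft A && S.rgt B && S.chain (-A) l B

theorem ok_sound (S : Shp) (A : ℚ) (l : List (ℚ × ℚ × ℚ × ℚ)) (B : ℚ) (h : S.ok A l B = true)
    (y z : ℝ) :
    (S.w0 : ℝ) + S.w1 * y + S.w2 * z + S.om * (y * z * Real.exp (S.mu * y + S.mu' * z))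
      ≤ S.la * Real.exp (y + S.t * z) := by
  simp only [ok, Bool.and_eq_true, decide_eq_true_eq] at h
  obtain ⟨⟨⟨⟨⟨⟨⟨⟨h1, h2⟩, h3⟩, h4⟩, h5⟩, h6⟩, h7⟩, h8⟩, h9⟩ := h
  have g0 : 0 < S.g := by unfold g; positivity
  have p3 : (0 : ℝ) < S.a1 := by exact_mod_cast h3
  have p4 : (0 : ℝ) < S.a2 := by exact_mod_cast h4
  have p5 : (S.w1 : ℝ) * S.a1 = S.w2 * S.a2 := by exact_mod_cast h5
  have p6 : (S.mu : ℝ) * S.a1 = S.mu' * S.a2 := by exact_mod_cast h6
  obtain ⟨u, v, hy, hz⟩ : ∃ u v : ℝ, y = S.a1 * (u + v) ∧ z = S.a2 * (u - v) :=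
    ⟨(y / S.a1 + z / S.a2) / 2, (y / S.a1 - z / S.a2) / 2, by field_simp; ring, by field_simp; ring⟩
  have key : S.Ineq u v := by
    rcases le_total u (-(A : ℝ)) with hA | hA
    · exact lft_sound S h1.le g0 A h7 u v hA
    · rcases lt_or_ge u B with hB | hB
      · exact chain_sound S h1.le g0 l (-A) B h9 u v (by push_cast; exact hA) hB
      · exact rgt_sound S h1.le g0 B h8 u v hB
  unfold Ineq at key
  have e1 : (S.p : ℝ) * u + S.k * v = y + S.t * z := by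
    unfold p k; push_cast; rw [hy, hz]; ring
  have e2 : (S.mu : ℝ) * y + S.mu' * z = S.nu * u := by
    unfold nu; push_cast; rw [hy, hz]
    calc (S.mu : ℝ) * (S.a1 * (u + v)) + S.mu' * (S.a2 * (u - v))
        = (S.mu * S.a1) * (u + v) + (S.mu' * S.a2) * (u - v) := by ring
      _ = 2 * S.mu * S.a1 * u := by rw [← p6]; ring
  have e3 : (S.w1 : ℝ) * y + S.w2 * z = S.c * u := by
    unfold c; push_cast; rw [hy, hz]
    calc (S.w1 : ℝ) * (S.a1 * (u + v)) + S.w2 * (S.a2 * (u - v))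
        = (S.w1 * S.a1) * (u + v) + (S.w2 * S.a2) * (u - v) := by ring
      _ = 2 * S.w1 * S.a1 * u := by rw [← p5]; ring
  have e4 : (S.om : ℝ) * (y * z * Real.exp (S.nu * u))
      = S.g * u ^ 2 * Real.exp (S.nu * u) - S.g * v ^ 2 * Real.exp (S.nu * u) := by
    unfold g; push_cast; rw [hy, hz]; ring
  rw [e1] at key
  rw [e2, e4]
  linarith

end Shp

end Pool.Agent.H9.RM
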